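import Pool.Agent.Helper95.TT.St

/-! # TT, module A9: the main theorem -/

set_option autoImplicit false

namespace Pool.Agent.Helper26.TT

open Pool.Agent.Helper95.TT
open NumberField IsDedekindDomain Polynomial Filter Topology
open scoped Classical

noncomputable section

variable {k : Type} [Field k] [NumberField k]

private theorem q_two (v : Pr k) : 2 ≤ q v := by
  have h0 : Ideal.absNorm v.asIdeal ≠ 0 := by
    intro h
    exact v.ne_bot (Ideal.absNorm_eq_zero_iff.mp h)
  have h1 : Ideal.absNorm v.asIdeal ≠ 1 := by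
    intro h
    exact v.isPrime.ne_top (Ideal.absNorm_eq_one_iff.mp h)
  unfold q
  omega

private theorem wt_nonneg (s : ℝ) (v : Pr k) : 0 ≤ wt s v := by
  unfold wt
  have h2 : (2 : ℝ) ≤ q v := by exact_mod_cast q_two v
  exact mul_nonneg (Real.log_nonneg (by linarith)) (Real.rpow_nonneg (by linarith) _)

private theorem wt_cont (v : Pr k) : Continuous (fun s : ℝ => wt s v) := by
  unfold wt
  have h2 : (2 : ℝ) ≤ q v := by exact_mod_cast q_two v
  exact continuous_const.mul
    (continuous_const.rpow continuous_neg (fun s => Or.inl (by linarith)))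

/-- the truncated weight -/
private def WW (R : Set (Pr k)) (s : ℝ) (v : Pr k) : ℝ := if v ∈ R then 0 else (s - 1) * wt s v

private theorem WW_summable (hA2 : StA2) (R : Set (Pr k)) (s : ℝ) (hs : 1 < s) (a : Pr k → ℝ)
    (A : ℝ) (ha : ∀ v, |a v| ≤ A) : Summable (fun v => WW R s v * a v) := by
  have h1 := (hA2 k).1 s hs
  refine Summable.of_norm_bounded ((h1.mul_left ((s - 1) * A))) ?_
  intro v
  rw [Real.norm_eq_abs, abs_mul]
  have hA : 0 ≤ A := le_trans (abs_nonneg _) (ha v)
  have hw := wt_nonneg s v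
  have hW : |WW R s v| ≤ (s - 1) * wt s v := by
    unfold WW
    split_ifs
    · simp only [abs_zero]
      exact mul_nonneg (by linarith) hw
    · rw [abs_of_nonneg (mul_nonneg (by linarith) hw)]
  calc |WW R s v| * |a v| ≤ ((s - 1) * wt s v) * A :=
        mul_le_mul hW (ha v) (abs_nonneg _) (mul_nonneg (by linarith) hw)
    _ = (s - 1) * A * wt s v := by ring

private theorem lemE (hA2 : StA2) (R : Set (Pr k)) (hR : R.Finite) (a : Pr k → ℝ) (A : ℝ)
    (ha : ∀ v, |a v| ≤ A) :
    Tendsto (fun s : ℝ => (s - 1) * ∑' v, a v * wt s v - ∑' v, WW R s v * a v) (𝓝[>] 1) (𝓝 0) := by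
  have h1 : Tendsto (fun s : ℝ => ∑ v ∈ hR.toFinset, (s - 1) * (a v * wt s v)) (𝓝[>] 1) (𝓝 0) := by
    have h2 : Continuous (fun s : ℝ => ∑ v ∈ hR.toFinset, (s - 1) * (a v * wt s v)) := by
      refine continuous_finset_sum _ ?_
      intro v _
      exact (continuous_id.sub continuous_const).mul (continuous_const.mul (wt_cont v))
    have h3 := h2.tendsto 1
    simp only [sub_self, zero_mul, Finset.sum_const_zero] at h3
    exact h3.mono_left nhdsWithin_le_nhds
  refine h1.congr' ?_
  filter_upwards [self_mem_nhdsWithin] with s hs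
  have hs1 : 1 < s := hs
  have hsum : Summable (fun v => a v * wt s v) := by
    have := (hA2 k).1 s hs1
    refine Summable.of_norm_bounded (this.mul_left A) ?_
    intro v
    rw [Real.norm_eq_abs, abs_mul, abs_of_nonneg (wt_nonneg s v)]
    exact mul_le_mul_of_nonneg_right (ha v) (wt_nonneg s v)
  have hW := WW_summable hA2 R s hs1 a A ha
  rw [← tsum_mul_left, ← Summable.tsum_sub (hsum.mul_left (s - 1)) hW]
  rw [tsum_eq_sum (s := hR.toFinset)]
  · refine Finset.sum_congr rfl ?_
    intro v hv
    have hv' : v ∈ R := hR.mem_toFinset.mp hv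
    simp only [WW, if_pos hv', zero_mul, sub_zero]
  · intro v hv
    have hv' : v ∉ R := fun h => hv (hR.mem_toFinset.mpr h)
    simp only [WW, if_neg hv']
    ring

private theorem chi_abs (D : 𝓞 k) (v : Pr k) : |chi D v| ≤ 1 := by
  unfold chi
  split_ifs <;> simp

private theorem chi_sq (D : 𝓞 k) (v : Pr k) (h : 2 * D ∉ v.asIdeal) : chi D v * chi D v = 1 := by
  unfold chi
  rw [if_neg h]
  split_ifs <;> norm_num

/-- the bounded coefficient -/
private def cc (f g : (𝓞 k)[X]) (v : Pr k) : ℝ :=
  if Bad f v ∨ Bad g v then 0 else (tr 1 f v : ℝ) * tr 1 g v / q v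

private theorem cc_abs (hA6 : StA6) (f g : (𝓞 k)[X]) (hf : 1 ≤ f.natDegree) (hg : 1 ≤ g.natDegree)
    (v : Pr k) :
    |cc f g v| ≤ (8 * f.natDegree + 12) * (8 * g.natDegree + 12) := by
  unfold cc
  have hq : (2 : ℝ) ≤ q v := by exact_mod_cast q_two v
  split_ifs with h
  · simp only [abs_zero]
    positivity
  · push Not at h
    have h1 := hA6 k v f hf h.1
    have h2 := hA6 k v g hg h.2
    rw [abs_div, abs_mul, abs_of_nonneg (by linarith : (0 : ℝ) ≤ q v), div_le_iff₀ (by linarith)]
    have h3 : √(q v : ℝ) * √(q v : ℝ) = q v := Real.mul_self_sqrt (by linarith)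
    calc |(tr 1 f v : ℝ)| * |(tr 1 g v : ℝ)|
        ≤ ((8 * f.natDegree + 12) * √(q v)) * ((8 * g.natDegree + 12) * √(q v)) :=
          mul_le_mul h1 h2 (abs_nonneg _) (le_trans (abs_nonneg _) h1)
      _ = (8 * f.natDegree + 12) * (8 * g.natDegree + 12) * (√(q v : ℝ) * √(q v : ℝ)) := by ring
      _ = _ := by rw [h3]

private theorem term_eq (hA5 : StA5) (f g : (𝓞 k)[X]) (D : 𝓞 k) (v : Pr k)
    (hv : ¬ (Bad f v ∨ Bad g v ∨ D ∈ v.asIdeal)) (s : ℝ) :
    (bb D f g v : ℝ) * Real.log (q v) * (q v : ℝ) ^ (-s) =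
      (2 + cc f g v * chi D v) * wt (s - 1) v := by
  push Not at hv
  obtain ⟨h1, h2, h3⟩ := hv
  have h20 : (2 : 𝓞 k) ∉ v.asIdeal := fun h => h1 (Or.inl h)
  have hq : (2 : ℝ) ≤ q v := by exact_mod_cast q_two v
  have h5 := (hA5 k v h20).2 D f h3
  have h6 : (bb D f g v : ℝ) = 2 * q v + chi D v * tr 1 f v * tr 1 g v := by
    unfold bb
    push_cast
    rw [h5]
  have h7 : (q v : ℝ) ^ (-(s - 1)) = q v * (q v : ℝ) ^ (-s) := by
    have : -(s - 1) = 1 + -s := by ring
    rw [this, Real.rpow_add (by linarith), Real.rpow_one]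
  have h8 : cc f g v = (tr 1 f v : ℝ) * tr 1 g v / q v := by
    unfold cc
    rw [if_neg]
    push Not
    exact ⟨h1, h2⟩
  rw [h6, h8]
  unfold wt
  rw [h7]
  field_simp

theorem hA9 (hA2 : StA2) (hA4 : StA4) (hA5 : StA5) (hA6 : StA6) (_hA7 : StA7) (hA8 : StA8) :
    StA9 := by
  intro k _ _ f g hf hg _ _
  set B : ℝ := (8 * f.natDegree + 12) * (8 * g.natDegree + 12) with hB
  have hB0 : 0 ≤ B := by rw [hB]; positivity
  have hc : ∀ v, |cc f g v| ≤ B := fun v => cc_abs hA6 f g hf hg v
  have hcchi : ∀ (D : 𝓞 k) v, |cc f g v * chi D v| ≤ B := by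
    intro D v
    rw [abs_mul]
    calc |cc f g v| * |chi D v| ≤ B * 1 :=
          mul_le_mul (hc v) (chi_abs D v) (abs_nonneg _) hB0
      _ = B := mul_one B
  have hc2 : ∀ (D : 𝓞 k) v, |2 + cc f g v * chi D v| ≤ 2 + B := by
    intro D v
    calc |2 + cc f g v * chi D v| ≤ |(2 : ℝ)| + |cc f g v * chi D v| := abs_add_le _ _
      _ ≤ 2 + B := by
        have := hcchi D v
        rw [abs_of_pos (by norm_num : (0 : ℝ) < 2)]
        linarith
  refine ⟨?_, ?_⟩
  · intro D R hR s hs
    have h1 := ((hA2 k).1 (s - 1) (by linarith)).mul_left (2 + B)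
    refine Summable.of_norm_bounded h1 ?_
    intro v
    rw [Real.norm_eq_abs]
    split_ifs with hv
    · simp only [abs_zero]
      exact mul_nonneg (by linarith) (wt_nonneg _ v)
    · rw [term_eq hA5 f g D v (fun h => hv (hR v h)) s, abs_mul, abs_of_nonneg (wt_nonneg _ v)]
      exact mul_le_mul_of_nonneg_right (hc2 D v) (wt_nonneg _ v)
  · intro ι _ D R hD hDD hRf hRb ε hε
    set RR : Set (Pr k) := ⋃ i, R i with hRR
    have hRRf : RR.Finite := Set.finite_iUnion hRf
    have hRRm : ∀ v, v ∉ RR → ∀ i, v ∉ R i := by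
      intro v hv i hi
      exact hv (Set.mem_iUnion.mpr ⟨i, hi⟩)
    -- weights
    have hev : ∀ᶠ s : ℝ in 𝓝[>] 1, (∀ v, 0 ≤ WW RR s v) ∧ Summable (WW RR s) := by
      filter_upwards [self_mem_nhdsWithin] with s hs
      have hs1 : 1 < s := hs
      refine ⟨?_, ?_⟩
      · intro v
        unfold WW
        split_ifs
        · exact le_refl _
        · exact mul_nonneg (by linarith) (wt_nonneg s v)
      · have := WW_summable hA2 RR s hs1 (fun _ => 1) 1 (fun _ => by simp)
        simpa using this
    have hone : ∀ (R' : Set (Pr k)), R'.Finite →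
        Tendsto (fun s => ∑' v, WW R' s v) (𝓝[>] 1) (𝓝 1) := by
      intro R' hR'
      have h1 := lemE hA2 R' hR' (fun _ => 1) 1 (fun _ => by simp)
      have h2 := ((hA2 k).2.sub h1)
      simp only [one_mul, mul_one, sub_sub_cancel, sub_zero] at h2
      exact h2
    have h2D : ∀ i v, v ∉ R i → 2 * D i ∉ v.asIdeal := by
      intro i v hv h
      have hp := v.isPrime.mem_or_mem h
      rcases hp with h2 | h2
      · exact hv (hRb i v (Or.inl (Or.inl h2)))
      · exact hv (hRb i v (Or.inr (Or.inr h2)))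
    have hgram : ∀ i j, Tendsto (fun s => ∑' v, WW RR s v * (chi (D i) v * chi (D j) v)) (𝓝[>] 1)
        (𝓝 (if i = j then 1 else 0)) := by
      intro i j
      by_cases hij : i = j
      · subst hij
        rw [if_pos rfl]
        have h1 := hone RR hRRf
        have h2 : (fun s => ∑' v, WW RR s v * (chi (D i) v * chi (D i) v)) =
            (fun s => ∑' v, WW RR s v) := by
          funext s
          refine tsum_congr ?_
          intro v
          by_cases hv : v ∈ RR
          · simp only [WW, if_pos hv, zero_mul]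
          · rw [chi_sq (D i) v (h2D i v (hRRm v hv i)), mul_one]
        rw [h2]
        exact h1
      · rw [if_neg hij]
        have h1 := lemE hA2 RR hRRf (fun v => chi (D i * D j) v) 1 (fun v => chi_abs _ v)
        have h2 := (hA4 k (D i * D j) (hDD i j hij)).sub h1
        simp only [sub_sub_cancel, sub_zero] at h2
        have h3 : (fun s => ∑' v, WW RR s v * (chi (D i) v * chi (D j) v)) =
            (fun s => ∑' v, WW RR s v * chi (D i * D j) v) := by
          funext s
          refine tsum_congr ?_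
          intro v
          by_cases hv : v ∈ RR
          · simp only [WW, if_pos hv, zero_mul]
          · have h20 : (2 : 𝓞 k) ∉ v.asIdeal := by
              intro h
              exact hRRm v hv i (hRb i v (Or.inl (Or.inl h)))
            rw [(hA5 k v h20).1 (D i) (D j)]
        rw [h3]
        exact h2
    have h8 := hA8 (Pr k) ι (WW RR) (cc f g) (fun i v => chi (D i) v) B hev (hone RR hRRf) hc
      (fun i v => chi_abs (D i) v) hgram (ε / 2) (by linarith)
    -- error terms
    set Y : ι → ℝ → ℝ := fun i s => ∑' v, WW RR s v * (cc f g v * chi (D i) v) with hY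
    set E : ι → ℝ → ℝ := fun i s =>
      2 * (∑' v, WW (R i) s v - 1) +
        (∑' v, WW (R i) s v * (cc f g v * chi (D i) v) - Y i s) with hE
    have hEt : ∀ i, Tendsto (E i) (𝓝[>] 1) (𝓝 0) := by
      intro i
      have h1 := hone (R i) (hRf i)
      have h2 := lemE hA2 (R i) (hRf i) (fun v => cc f g v * chi (D i) v) B (hcchi (D i))
      have h3 := lemE hA2 RR hRRf (fun v => cc f g v * chi (D i) v) B (hcchi (D i))
      have h4 := h3.sub h2
      simp only [sub_self, sub_sub_sub_cancel_left] at h4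
      have h5 := ((h1.sub_const 1).const_mul 2).add h4
      simp only [sub_self, mul_zero, add_zero] at h5
      exact h5
    set M : ℝ := √(B ^ 2 + ε / 2) with hM
    have hM0 : 0 ≤ M := Real.sqrt_nonneg _
    have hMM : M ^ 2 = B ^ 2 + ε / 2 := Real.sq_sqrt (by positivity)
    have hlast : Tendsto (fun s => ∑ i, (2 * M * |E i s| + E i s ^ 2)) (𝓝[>] 1) (𝓝 0) := by
      have h1 : ∀ i ∈ (Finset.univ : Finset ι), Tendsto (fun s => 2 * M * |E i s| + E i s ^ 2)
          (𝓝[>] 1) (𝓝 0) := by
        intro i _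
        have h2 := ((hEt i).abs.const_mul (2 * M)).add ((hEt i).pow 2)
        simp only [abs_zero, mul_zero, ne_eq, OfNat.ofNat_ne_zero, not_false_eq_true, zero_pow,
          add_zero] at h2
        exact h2
      have h3 := tendsto_finset_sum _ h1
      simpa using h3
    have hlast' : ∀ᶠ s : ℝ in 𝓝[>] 1, ∑ i, (2 * M * |E i s| + E i s ^ 2) < ε / 2 :=
      hlast.eventually_lt_const (by linarith)
    have hmain : ∀ᶠ s : ℝ in 𝓝[>] 1, ∑ i, (Y i s + E i s) ^ 2 ≤ B ^ 2 + ε := by
      filter_upwards [h8, hlast'] with s h1 h2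
      have h1' : ∑ i, Y i s ^ 2 ≤ B ^ 2 + ε / 2 := h1
      have h3 : ∀ i, |Y i s| ≤ M := by
        intro i
        have h4 : Y i s ^ 2 ≤ ∑ i, Y i s ^ 2 :=
          Finset.single_le_sum (f := fun i => Y i s ^ 2) (fun _ _ => sq_nonneg _)
            (Finset.mem_univ i)
        exact abs_le_of_sq_le_sq (by rw [hMM]; linarith) hM0
      have h5 : ∑ i, (Y i s + E i s) ^ 2 ≤ ∑ i, (Y i s ^ 2 + (2 * M * |E i s| + E i s ^ 2)) := by
        refine Finset.sum_le_sum ?_
        intro i _
        have h6 : Y i s * E i s ≤ M * |E i s| := by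
          calc Y i s * E i s ≤ |Y i s * E i s| := le_abs_self _
            _ = |Y i s| * |E i s| := abs_mul _ _
            _ ≤ M * |E i s| := mul_le_mul_of_nonneg_right (h3 i) (abs_nonneg _)
        nlinarith
      rw [Finset.sum_add_distrib] at h5
      linarith
    -- transfer
    have htr : Tendsto (fun s : ℝ => s - 1) (𝓝[>] 2) (𝓝[>] 1) := by
      refine tendsto_nhdsWithin_iff.mpr ⟨?_, ?_⟩
      · have h1 : Continuous (fun s : ℝ => s - 1) := by fun_prop
        have h2 := h1.tendsto 2
        have h3 : (2 : ℝ) - 1 = 1 := by norm_num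
        rw [h3] at h2
        exact h2.mono_left nhdsWithin_le_nhds
      · filter_upwards [self_mem_nhdsWithin] with s hs
        have hs2 : (2 : ℝ) < s := hs
        have : (1 : ℝ) < s - 1 := by linarith
        exact this
    have hfin := htr.eventually hmain
    filter_upwards [hfin, self_mem_nhdsWithin] with s h1 hs
    have hs2 : (2 : ℝ) < s := hs
    have hs1 : (1 : ℝ) < s - 1 := by linarith
    have hkey : ∀ i, (s - 2) * FF (R i) (D i) f g s - 2 = Y i (s - 1) + E i (s - 1) := by
      intro i
      have hW1 : Summable (WW (R i) (s - 1)) := by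
        have := WW_summable hA2 (R i) (s - 1) hs1 (fun _ => 1) 1 (fun _ => by simp)
        simpa using this
      have hW2 := WW_summable hA2 (R i) (s - 1) hs1 (fun v => cc f g v * chi (D i) v) B
        (hcchi (D i))
      have h2 : (s - 2) * FF (R i) (D i) f g s =
          2 * ∑' v, WW (R i) (s - 1) v + ∑' v, WW (R i) (s - 1) v * (cc f g v * chi (D i) v) := by
        unfold FF
        rw [← tsum_mul_left, ← tsum_mul_left, ← Summable.tsum_add (hW1.mul_left 2) hW2]
        refine tsum_congr ?_
        intro v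
        by_cases hv : v ∈ R i
        · simp only [WW, if_pos hv, mul_zero, zero_mul, add_zero]
        · rw [if_neg hv, term_eq hA5 f g (D i) v (fun h => hv (hRb i v h)) s]
          simp only [WW, if_neg hv]
          ring
      rw [h2]
      simp only [hE]
      ring
    simp_rw [hkey]
    exact h1

end

end Pool.Agent.Helper26.TT
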